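import Pool.Agent.Y912.HB.Main

set_option autoImplicit false

namespace Pool.Agent.Results.MP_a6d20f_an.SharpRate

open Y912.HB Pool.Agent.Results.MP_a6d20f_an.NoScalarAcceleration

/-- **The heavy-ball method is never faster than gradient descent (up to a constant) on smooth
strongly convex functions of one variable.** Let `0 < μ < L`.
(1) Dichotomy: for all parameters `γ, β` either the worst-case rate is at least `1 - 144 μ / L`
already on the quadratics `l x² / 2`, or some function of the scalar class has a cycle.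
(2) In both cases the worst-case rate over the scalar class is at least `1 - 144 μ / L`.
(3) This order is optimal: gradient descent (`γ = 1/L`, `β = 0`) has the rate `≤ 1 - μ / L`.
(4) In particular no tuning accelerates over the scalar class (negative answer to Q1). -/
theorem result :
    (∀ μ L γ β : ℝ, 0 < μ → μ < L →
      1 ≤ rateOn (Quadratics μ L) γ β + ENNReal.ofReal (144 * (μ / L)) ∨ HasCycle γ β μ L) ∧
    (∀ μ L γ β : ℝ, 0 < μ → μ < L → 1 ≤ rate γ β μ L + ENNReal.ofReal (144 * (μ / L))) ∧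
    (∀ μ L : ℝ, 0 < μ → μ < L → rate (1 / L) 0 μ L + ENNReal.ofReal (μ / L) ≤ 1) ∧
    ¬ ∃ γ β : ℝ → ℝ → ℝ, Accelerates γ β := by
  have H1 : ∀ μ L γ β : ℝ, 0 < μ → μ < L →
      1 ≤ rateOn (Quadratics μ L) γ β + ENNReal.ofReal (144 * (μ / L)) ∨ HasCycle γ β μ L := by
    intro μ L γ β hμ hμL
    rcases le_or_gt 1 (rateOn (Quadratics μ L) γ β + ENNReal.ofReal (144 * (μ / L))) with h | h
    · exact Or.inl h
    · exact Or.inr (dichotomy hμ hμL h)
  have H2 : ∀ μ L γ β : ℝ, 0 < μ → μ < L →
      1 ≤ rate γ β μ L + ENNReal.ofReal (144 * (μ / L)) := by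
    intro μ L γ β hμ hμL
    rcases H1 μ L γ β hμ hμL with h | h
    · refine h.trans ?_
      rw [rate_eq]
      gcongr
      exact rateOn_mono (quadratics_subset μ L) γ β
    · exact (one_le_of_cycle hμ h).trans le_self_add
  refine ⟨H1, H2, ?_, ?_⟩
  · intro μ L hμ hμL
    have hL : 0 < L := hμ.trans hμL
    have h1 : μ / L < 1 := by rw [div_lt_one hL]; exact hμL
    have h2 : 0 < μ / L := div_pos hμ hL
    calc rate (1 / L) 0 μ L + ENNReal.ofReal (μ / L)
        ≤ ENNReal.ofReal (1 - μ / L) + ENNReal.ofReal (μ / L) := by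
          gcongr
          exact gd_rate hμ hμL
      _ = 1 := by
          rw [← ENNReal.ofReal_add (by linarith) h2.le, sub_add_cancel, ENNReal.ofReal_one]
  · rintro ⟨γ, β, c, hc, κ₀, h0, h1, h⟩
    set r : ℝ := min (Real.sqrt κ₀) (c / 200) with hr
    have hr0 : 0 < r := lt_min (Real.sqrt_pos.mpr h0) (by positivity)
    have hrc : r ≤ c / 200 := min_le_right _ _
    have hr2 : r ^ 2 ≤ κ₀ := by
      have : r ≤ Real.sqrt κ₀ := min_le_left _ _
      calc r ^ 2 ≤ (Real.sqrt κ₀) ^ 2 := pow_le_pow_left₀ hr0.le this 2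
        _ = κ₀ := Real.sq_sqrt h0.le
    have hq1 : r ^ 2 < 1 := lt_of_le_of_lt hr2 h1
    have hq0 : 0 < r ^ 2 := by positivity
    have a := h (r ^ 2) 1 hq0 hq1 (by rw [div_one]; exact hr2)
    have b := H2 (r ^ 2) 1 (γ (r ^ 2) 1) (β (r ^ 2) 1) hq0 hq1
    rw [div_one] at a b
    rw [Real.sqrt_sq hr0.le] at a
    have hfin : rate (γ (r ^ 2) 1) (β (r ^ 2) 1) (r ^ 2) 1 ≠ ⊤ := by
      intro htop
      rw [htop, top_add] at a
      exact absurd a (by simp)
    have h3 := a.trans b
    rw [ENNReal.add_le_add_iff_left hfin] at h3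
    have h4 := (ENNReal.ofReal_le_ofReal_iff (by positivity)).mp h3
    nlinarith

end Pool.Agent.Results.MP_a6d20f_an.SharpRate
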